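import Mathlib

/-!
# Two by two minors: Cauchy-Binet, coefficients
-/

set_option autoImplicit false

namespace Pool.Agent.Helper11_Minor

open Matrix Finset

/-- The two by two minor of `A` with rows `a`, `b` and columns `i`, `j`. -/
def min2 {R m n : Type*} [CommRing R] (A : Matrix m n R) (a b : m) (i j : n) : R :=
  A a i * A b j - A a j * A b i

section ring

variable {R S m n p : Type*} [CommRing R] [CommRing S]

theorem min2_swap_col (A : Matrix m n R) (a b : m) (i j : n) :
    min2 A a b j i = -min2 A a b i j := by
  simp only [min2]; ring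

theorem min2_swap_row (A : Matrix m n R) (a b : m) (i j : n) :
    min2 A b a i j = -min2 A a b i j := by
  simp only [min2]; ring

theorem min2_self_col (A : Matrix m n R) (a b : m) (i : n) : min2 A a b i i = 0 := by
  simp only [min2]; ring

theorem min2_self_row (A : Matrix m n R) (a : m) (i j : n) : min2 A a a i j = 0 := by
  simp only [min2]; ring

theorem min2_map (f : R →+* S) (A : Matrix m n R) (a b : m) (i j : n) :
    min2 (A.map f) a b i j = f (min2 A a b i j) := by
  simp only [min2, Matrix.map_apply, map_sub, map_mul]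

/-- Sum over all pairs as a sum over increasing pairs. -/
theorem sum_pairs [Fintype n] [LinearOrder n] (g : n → n → R) (h0 : ∀ k, g k k = 0) :
    ∑ k, ∑ l, g k l =
      ∑ q ∈ univ.filter (fun q : n × n => q.1 < q.2), (g q.1 q.2 + g q.2 q.1) := by
  classical
  rw [← Fintype.sum_prod_type' (f := fun k l => g k l)]
  have h1 : ∑ q : n × n, g q.1 q.2 =
      ∑ q ∈ univ.filter (fun q : n × n => q.1 < q.2), g q.1 q.2 +
        ∑ q ∈ univ.filter (fun q : n × n => q.2 < q.1), g q.1 q.2 := by
    rw [← sum_filter_add_sum_filter_not univ (fun q : n × n => q.1 < q.2)]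
    congr 1
    symm
    refine sum_subset_zero_on_sdiff ?_ ?_ fun _ _ => rfl
    · intro q hq
      simp only [mem_filter, mem_univ, true_and] at hq ⊢
      exact hq.le.not_gt
    · intro q hq
      simp only [mem_sdiff, mem_filter, mem_univ, true_and] at hq
      rw [le_antisymm (not_lt.1 hq.2) (not_lt.1 hq.1)]
      exact h0 _
  have h2 : ∑ q ∈ univ.filter (fun q : n × n => q.2 < q.1), g q.1 q.2 =
      ∑ q ∈ univ.filter (fun q : n × n => q.1 < q.2), g q.2 q.1 := by
    refine sum_nbij' (fun q => (q.2, q.1)) (fun q => (q.2, q.1)) ?_ ?_ ?_ ?_ ?_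
    · intro q hq
      simp only [mem_filter, mem_univ, true_and] at hq ⊢
      exact hq
    · intro q hq
      simp only [mem_filter, mem_univ, true_and] at hq ⊢
      exact hq
    · intro q _
      rfl
    · intro q _
      rfl
    · intro q _
      rfl
  rw [h1, h2, sum_add_distrib]

/-- Cauchy-Binet for two by two minors. -/
theorem min2_mul [Fintype n] [LinearOrder n] (A : Matrix m n R) (B : Matrix n p R) (a b : m)
    (i j : p) : min2 (A * B) a b i j =
      ∑ q ∈ univ.filter (fun q : n × n => q.1 < q.2),
        min2 A a b q.1 q.2 * min2 B q.1 q.2 i j := by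
  have h1 : min2 (A * B) a b i j = ∑ k, ∑ l, A a k * A b l * min2 B k l i j := by
    simp only [min2, Matrix.mul_apply]
    rw [sum_mul_sum, sum_mul_sum, ← sum_sub_distrib]
    refine sum_congr rfl fun k _ => ?_
    rw [← sum_sub_distrib]
    refine sum_congr rfl fun l _ => ?_
    ring
  rw [h1, sum_pairs (fun k l => A a k * A b l * min2 B k l i j) fun k => by
    rw [min2_self_row, mul_zero]]
  refine sum_congr rfl fun q _ => ?_
  rw [min2_swap_row B q.1 q.2]
  simp only [min2]
  ring

end ring

end Pool.Agent.Helper11_Minor
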