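import Pool.Agent.Helper11_Minor.Cb
import Pool.Agent.Helper94_Pisot.Spectral

/-!
# The two by two minors of the powers of a Pisot matrix
-/

set_option autoImplicit false

namespace Pool.Agent.Helper11_Minor

open Matrix Finset Filter Topology Pool.Agent.Helper94_Pisot

variable {d : ℕ}

theorem entry_bound {M : Matrix (Fin d) (Fin d) ℤ} {r : ℝ} {f l : Fin d → ℝ} {C θ : ℝ}
    (h : PerronData M r f l C θ) (n : ℕ) (i j : Fin d) :
    |(((M ^ n) i j : ℤ) : ℝ) - r ^ n * (l j * f i)| ≤ C * θ ^ n := by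
  have h1 := (norm_le_pi_norm ((mR M ^ n) *ᵥ bv j - (r ^ n * l j) • f) i).trans (h.bound n j)
  rw [Pi.sub_apply, mR_mulVec_bv, Pi.smul_apply, smul_eq_mul, Real.norm_eq_abs] at h1
  rwa [show r ^ n * (l j * f i) = r ^ n * l j * f i by ring]

theorem min2_real {r e C x : ℝ} (p q s t : ℝ) (ep eq es et : ℝ) (hr : 0 ≤ r) (he : 0 ≤ e)
    (hp : |ep| ≤ C * e) (hq : |eq| ≤ C * e) (hs : |es| ≤ C * e) (ht : |et| ≤ C * e)
    (hC : 0 ≤ C) (hx : |p| ≤ x ∧ |q| ≤ x ∧ |s| ≤ x ∧ |t| ≤ x) (hdet : p * q = s * t) :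
    |(r * p + ep) * (r * q + eq) - (r * s + es) * (r * t + et)| ≤
      r * (4 * x * C * e) + 2 * C ^ 2 * e ^ 2 := by
  obtain ⟨h1, h2, h3, h4⟩ := hx
  have h5 : (r * p + ep) * (r * q + eq) - (r * s + es) * (r * t + et) =
      r * (p * eq + q * ep - s * et - t * es) + (ep * eq - es * et) := by
    linear_combination r ^ 2 * hdet
  have hx0 : 0 ≤ x := (abs_nonneg p).trans h1
  have hCe : 0 ≤ C * e := mul_nonneg hC he
  have b1 : |p * eq| ≤ x * (C * e) := by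
    rw [abs_mul]; exact mul_le_mul h1 hq (abs_nonneg _) hx0
  have b2 : |q * ep| ≤ x * (C * e) := by
    rw [abs_mul]; exact mul_le_mul h2 hp (abs_nonneg _) hx0
  have b3 : |s * et| ≤ x * (C * e) := by
    rw [abs_mul]; exact mul_le_mul h3 ht (abs_nonneg _) hx0
  have b4 : |t * es| ≤ x * (C * e) := by
    rw [abs_mul]; exact mul_le_mul h4 hs (abs_nonneg _) hx0
  have b5 : |ep * eq| ≤ (C * e) * (C * e) := by
    rw [abs_mul]; exact mul_le_mul hp hq (abs_nonneg _) hCe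
  have b6 : |es * et| ≤ (C * e) * (C * e) := by
    rw [abs_mul]; exact mul_le_mul hs ht (abs_nonneg _) hCe
  have b7 : |p * eq + q * ep - s * et - t * es| ≤ 4 * x * C * e := by
    rw [abs_le] at b1 b2 b3 b4 ⊢
    constructor <;> nlinarith [b1.1, b1.2, b2.1, b2.2, b3.1, b3.2, b4.1, b4.2]
  have b8 : |ep * eq - es * et| ≤ 2 * C ^ 2 * e ^ 2 := by
    rw [abs_le] at b5 b6 ⊢
    constructor <;> nlinarith [b5.1, b5.2, b6.1, b6.2]
  rw [h5]
  refine (abs_add_le _ _).trans (add_le_add ?_ b8)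
  rw [abs_mul, abs_of_nonneg hr]
  exact mul_le_mul_of_nonneg_left b7 hr

/-- The two by two minors of `M ^ n` are `o(r ^ n)`. -/
theorem min2_pow_tendsto {M : Matrix (Fin d) (Fin d) ℤ} {r : ℝ} {f l : Fin d → ℝ} {C θ : ℝ}
    (h : PerronData M r f l C θ) (hr1 : 1 < r) (i k j q : Fin d) :
    Tendsto (fun n : ℕ => ((min2 (M ^ n) i k j q : ℤ) : ℝ) / r ^ n) atTop (𝓝 0) := by
  have hr : 0 < r := by linarith
  have hθ := h.θ_pos
  have hC := h.hC
  obtain ⟨x, hx⟩ : ∃ x : ℝ, ∀ a b : Fin d, |l a * f b| ≤ x := by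
    refine ⟨∑ a, ∑ b, |l a * f b|, fun a b => ?_⟩
    refine (single_le_sum (f := fun b => |l a * f b|) (fun _ _ => abs_nonneg _)
      (mem_univ b)).trans ?_
    exact single_le_sum (f := fun a => ∑ b, |l a * f b|)
      (fun _ _ => sum_nonneg fun _ _ => abs_nonneg _) (mem_univ a)
  have hx0 : 0 ≤ x := (abs_nonneg _).trans (hx i i)
  have hlim : Tendsto (fun n : ℕ => (4 * x * C + 2 * C ^ 2) * θ ^ n) atTop (𝓝 0) := by
    simpa using (tendsto_pow_atTop_nhds_zero_of_lt_one hθ.le h.θ_lt).const_mul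
      (4 * x * C + 2 * C ^ 2)
  rw [tendsto_zero_iff_abs_tendsto_zero]
  refine squeeze_zero (fun n => abs_nonneg _) (fun n => ?_) hlim
  have hrn : 0 < r ^ n := pow_pos hr n
  have hθn : 0 ≤ θ ^ n := pow_nonneg hθ.le n
  have hθ1 : θ ^ n ≤ 1 := pow_le_one₀ hθ.le h.θ_lt.le
  have hr1n : 1 ≤ r ^ n := one_le_pow₀ hr1.le
  have key := min2_real (r := r ^ n) (e := θ ^ n) (C := C) (x := x) (l j * f i) (l q * f k)
    (l q * f i) (l j * f k) ((((M ^ n) i j : ℤ) : ℝ) - r ^ n * (l j * f i))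
    ((((M ^ n) k q : ℤ) : ℝ) - r ^ n * (l q * f k)) ((((M ^ n) i q : ℤ) : ℝ) - r ^ n * (l q * f i))
    ((((M ^ n) k j : ℤ) : ℝ) - r ^ n * (l j * f k)) hrn.le hθn (entry_bound h n i j)
    (entry_bound h n k q) (entry_bound h n i q) (entry_bound h n k j) hC
    ⟨hx _ _, hx _ _, hx _ _, hx _ _⟩ (by ring)
  simp only [add_sub_cancel] at key
  rw [Function.comp_apply, abs_div, abs_of_pos hrn, div_le_iff₀ hrn]
  have e1 : ((min2 (M ^ n) i k j q : ℤ) : ℝ) = (((M ^ n) i j : ℤ) : ℝ) * (((M ^ n) k q : ℤ) : ℝ) -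
      (((M ^ n) i q : ℤ) : ℝ) * (((M ^ n) k j : ℤ) : ℝ) := by
    simp only [min2]
    push_cast
    ring
  rw [e1]
  refine key.trans ?_
  have e2 : 2 * C ^ 2 * (θ ^ n) ^ 2 ≤ 2 * C ^ 2 * (θ ^ n * r ^ n) := by
    refine mul_le_mul_of_nonneg_left ?_ (by positivity)
    rw [sq]
    exact mul_le_mul_of_nonneg_left (hθ1.trans hr1n) hθn
  linarith

end Pool.Agent.Helper11_Minor
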