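import Pool.Agent.Helper8_Minor.Stmt
import Pool.Agent.Helper11_Minor.Lam2

/-!
# Squad MINORS, part B: the sign coherent class
-/

set_option autoImplicit false

namespace Pool.Agent.Helper11_Minor

open Matrix Finset Filter Topology Pool.Agent.Helper94_Pisot Pool.Agent.Minor

variable {d : ℕ}

/-! ### The chain rule -/

/-- The action of a substitution on the lattice. -/
def vec (u : Fin d → List (Fin d)) : (Fin d → ℤ) →+ (Fin d → ℤ) where
  toFun v := ∑ k, v k • ab (u k)
  map_zero' := by simp
  map_add' x y := by simp [add_smul, sum_add_distrib]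

theorem vec_single (u : Fin d → List (Fin d)) (a : Fin d) : vec u (Pi.single a 1) = ab (u a) := by
  show ∑ k, (Pi.single a (1 : ℤ) : Fin d → ℤ) k • ab (u k) = ab (u a)
  rw [sum_eq_single a]
  · simp
  · intro k _ hk
    simp [Pi.single_eq_of_ne hk]
  · simp

/-- The action of a substitution on the Laurent polynomials. -/
noncomputable def phi (u : Fin d → List (Fin d)) : Lau d →+* Lau d :=
  AddMonoidAlgebra.mapDomainRingHom ℤ (vec u)

theorem phi_mon (u : Fin d → List (Fin d)) (v : Fin d → ℤ) : phi u (mon v) = mon (vec u v) := by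
  show AddMonoidAlgebra.mapDomain (vec u) (AddMonoidAlgebra.single v 1) = _
  rw [AddMonoidAlgebra.mapDomain_single]
  rfl

theorem mon_add (v w : Fin d → ℤ) : mon (v + w) = mon v * mon w := by
  rw [mon, mon, mon, AddMonoidAlgebra.single_mul_single, one_mul]

theorem mon_zero : mon (0 : Fin d → ℤ) = 1 := rfl

theorem fox_append (u w : List (Fin d)) (i : Fin d) :
    fox (u ++ w) i = fox u i + mon (ab u) * fox w i := by
  induction u with
  | nil => simp [fox, mon_zero]
  | cons a u ih =>
    rw [List.cons_append, fox, fox, ih, ab_cons, mon_add, ← show var a = mon (Pi.single a 1) from rfl]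
    ring

theorem fox_flatMap (u : Fin d → List (Fin d)) (w : List (Fin d)) (i : Fin d) :
    fox (w.flatMap u) i = ∑ k, phi u (fox w k) * fox (u k) i := by
  induction w with
  | nil => simp [fox]
  | cons a w ih =>
    rw [List.flatMap_cons, fox_append, ih]
    have h1 : ∀ k, phi u (fox (a :: w) k) * fox (u k) i =
        (if a = k then fox (u k) i else 0) + mon (ab (u a)) * (phi u (fox w k) * fox (u k) i) := by
      intro k
      rw [fox, map_add, map_mul, show phi u (var a) = mon (ab (u a)) by
        rw [var, phi_mon, vec_single]]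
      split_ifs with h
      · rw [map_one]; ring
      · rw [map_zero]; ring
    rw [sum_congr rfl fun k _ => h1 k, sum_add_distrib, ← mul_sum, sum_ite_eq]
    simp

/-- The abelianized Fox matrix. -/
noncomputable def FM (t : Fin d → List (Fin d)) : Matrix (Fin d) (Fin d) (Lau d) :=
  fun a i => fox (t a) i

theorem minor_eq (t : Fin d → List (Fin d)) (a b i j : Fin d) :
    minor t a b i j = min2 (FM t) a b i j := rfl

theorem FM_comp (t u : Fin d → List (Fin d)) :
    FM (fun a => (t a).flatMap u) = (FM t).map (phi u) * FM u := by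
  ext1 a i
  exact fox_flatMap u (t a) i

theorem minor_comp (t u : Fin d → List (Fin d)) (a b i j : Fin d) :
    minor (fun a => (t a).flatMap u) a b i j =
      ∑ q ∈ univ.filter (fun q : Fin d × Fin d => q.1 < q.2),
        phi u (minor t a b q.1 q.2) * minor u q.1 q.2 i j := by
  rw [minor_eq, FM_comp, min2_mul]
  refine sum_congr rfl fun q _ => ?_
  rw [min2_map]
  rfl

/-! ### Nonnegative coefficients -/

/-- All coefficients are nonnegative. -/
def NN (p : Lau d) : Prop := ∀ v, 0 ≤ p.coeff v

theorem NN.mul {p q : Lau d} (hp : NN p) (hq : NN q) : NN (p * q) := by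
  classical
  intro v
  rw [AddMonoidAlgebra.coeff_mul]
  refine sum_nonneg fun x _ => sum_nonneg fun y _ => ?_
  show (0:ℤ) ≤ if x + y = v then p.coeff x * q.coeff y else 0
  split_ifs
  · exact mul_nonneg (hp x) (hq y)
  · exact le_rfl

theorem NN.sum {ι : Type*} {s : Finset ι} {f : ι → Lau d} (h : ∀ i ∈ s, NN (f i)) :
    NN (∑ i ∈ s, f i) := by
  classical
  induction s using Finset.induction_on with
  | empty => intro v; simp
  | insert a s ha ih =>
    rw [sum_insert ha]
    intro v
    exact add_nonneg (h a (mem_insert_self _ _) v) (ih (fun i hi => h i (mem_insert_of_mem hi)) v)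

theorem NN.phi {p : Lau d} (hp : NN p) (u : Fin d → List (Fin d)) :
    NN (Pool.Agent.Helper11_Minor.phi u p) := by
  classical
  intro v
  have h1 : (Pool.Agent.Helper11_Minor.phi u p).coeff = Finsupp.mapDomain (vec u) p.coeff := rfl
  rw [h1, Finsupp.mapDomain, Finsupp.sum_apply]
  refine sum_nonneg fun x _ => ?_
  show (0:ℤ) ≤ (Finsupp.single (vec u x) (p.coeff x)) v
  rw [Finsupp.single_apply]
  split_ifs
  · exact hp x
  · exact le_rfl

/-- The sum of the coefficients. -/
noncomputable def aug : Lau d →+* ℤ :=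
  (AddMonoidAlgebra.lift ℤ ℤ (Fin d → ℤ) (1 : Multiplicative (Fin d → ℤ) →* ℤ)).toRingHom

theorem aug_apply (p : Lau d) : aug p = ∑ v ∈ p.coeff.support, p.coeff v := by
  show AddMonoidAlgebra.lift ℤ ℤ (Fin d → ℤ) (1 : Multiplicative (Fin d → ℤ) →* ℤ) p = _
  rw [AddMonoidAlgebra.lift_apply]
  simp [Finsupp.sum]

theorem aug_mon (v : Fin d → ℤ) : aug (mon v) = 1 := by
  show AddMonoidAlgebra.lift ℤ ℤ (Fin d → ℤ) (1 : Multiplicative (Fin d → ℤ) →* ℤ)
    (AddMonoidAlgebra.single v 1) = 1
  rw [AddMonoidAlgebra.lift_single]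
  simp

theorem aug_fox (w : List (Fin d)) (i : Fin d) : aug (fox w i) = ab w i := by
  induction w with
  | nil => simp [fox]
  | cons a w ih =>
    rw [fox, map_add, map_mul, ih, show aug (var a) = 1 from aug_mon _, ab_cons, Pi.add_apply,
      one_mul]
    congr 1
    split_ifs with h
    · rw [map_one, h, Pi.single_eq_same]
    · rw [map_zero, Pi.single_eq_of_ne (Ne.symm h)]

theorem nm_of_NN {p : Lau d} (hp : NN p) : (nm p : ℤ) = aug p := by
  rw [aug_apply, nm]
  push_cast
  exact sum_congr rfl fun v _ => abs_of_nonneg (hp v)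

theorem nm_neg' (p : Lau d) : nm (-p) = nm p := by
  have h1 : (-p).coeff = -(p.coeff) := rfl
  rw [nm, nm, h1, Finsupp.support_neg]
  refine sum_congr rfl fun v _ => ?_
  rw [Finsupp.neg_apply, Int.natAbs_neg]

theorem nm_zero' : nm (0 : Lau d) = 0 := by simp [nm]

theorem nm_of_sign {p : Lau d} {c : ℤ} (hc : c = 1 ∨ c = -1) (hp : ∀ v, 0 ≤ c * p.coeff v) :
    (nm p : ℤ) = |aug p| := by
  rcases hc with rfl | rfl
  · have h1 : NN p := fun v => by simpa using hp v
    have h2 := nm_of_NN h1
    rw [← h2]
    simp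
  · have h1 : NN (-p) := fun v => by
      have h3 := hp v
      have h4 : (-p).coeff v = -(p.coeff v) := rfl
      rw [h4]
      linarith
    have h2 := nm_of_NN h1
    rw [nm_neg', map_neg] at h2
    rw [h2, ← abs_neg, ← h2]
    simp

/-! ### Coherent substitutions -/

theorem coherent_iff {s : Fin d → Fin d → ℤ} {t : Fin d → List (Fin d)} : Coherent s t ↔
    ∃ δ : ℤ, (δ = 1 ∨ δ = -1) ∧ ∀ a b i j : Fin d, a < b → i < j →
      NN ((δ * s a b * s i j) • minor t a b i j) := by
  constructor
  · rintro ⟨δ, hδ, h⟩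
    refine ⟨δ, hδ, fun a b i j hab hij v => ?_⟩
    exact h a b i j hab hij v
  · rintro ⟨δ, hδ, h⟩
    refine ⟨δ, hδ, fun a b i j hab hij v => ?_⟩
    exact h a b i j hab hij v

theorem sign_mul {x y : ℤ} (hx : x = 1 ∨ x = -1) (hy : y = 1 ∨ y = -1) :
    x * y = 1 ∨ x * y = -1 := by
  rcases hx with rfl | rfl <;> rcases hy with rfl | rfl <;> simp

theorem coherent_comp {s : Fin d → Fin d → ℤ} (hs : ∀ a b, a < b → s a b = 1 ∨ s a b = -1)
    {t u : Fin d → List (Fin d)} (ht : Coherent s t) (hu : Coherent s u) :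
    Coherent s (fun a => (t a).flatMap u) := by
  obtain ⟨δ, hδ, h⟩ := coherent_iff.1 ht
  obtain ⟨δ', hδ', h'⟩ := coherent_iff.1 hu
  refine coherent_iff.2 ⟨δ * δ', sign_mul hδ hδ', fun a b i j hab hij => ?_⟩
  rw [minor_comp, smul_sum]
  refine NN.sum fun q hq => ?_
  rw [mem_filter] at hq
  have h1 : (δ * δ' * s a b * s i j) • (phi u (minor t a b q.1 q.2) * minor u q.1 q.2 i j) =
      phi u ((δ * s a b * s q.1 q.2) • minor t a b q.1 q.2) *
        ((δ' * s q.1 q.2 * s i j) • minor u q.1 q.2 i j) := by
    rw [map_zsmul, smul_mul_smul_comm]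
    congr 1
    rcases hs q.1 q.2 hq.2 with h2 | h2 <;> rw [h2] <;> ring
  rw [h1]
  exact (h a b q.1 q.2 hab hq.2).phi u |>.mul (h' q.1 q.2 i j hq.2 hij)

theorem fox_letter (a i : Fin d) : fox [a] i = if a = i then 1 else 0 := by
  simp [fox]

theorem coherent_id {s : Fin d → Fin d → ℤ} (hs : ∀ a b, a < b → s a b = 1 ∨ s a b = -1) :
    Coherent s (fun a => [a]) := by
  refine coherent_iff.2 ⟨1, Or.inl rfl, fun a b i j hab hij => ?_⟩
  have h0 : minor (fun a : Fin d => [a]) a b i j = if a = i ∧ b = j then 1 else 0 := by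
    simp only [minor, fox_letter]
    by_cases h1 : a = i
    · subst h1
      by_cases h2 : b = j
      · subst h2
        simp [hab.ne', hab.ne]
      · by_cases h3 : a = j
        · exact absurd h3 hij.ne
        · simp [h2, h3]
    · by_cases h3 : a = j
      · by_cases h4 : b = i
        · subst h3 h4
          exact absurd hab hij.not_gt
        · simp [h1, h4]
      · simp [h1, h3]
  rw [h0]
  split_ifs with h
  · obtain ⟨rfl, rfl⟩ := h
    have h1 : (1 * s a b * s a b : ℤ) = 1 := by
      rcases hs a b hab with h2 | h2 <;> rw [h2] <;> norm_num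
    rw [h1, one_smul]
    intro v
    rw [AddMonoidAlgebra.one_def, AddMonoidAlgebra.coeff_single, Finsupp.single_apply]
    split_ifs <;> norm_num
  · rw [smul_zero]
    intro v
    simp

/-- The composition of a list of substitutions. -/
def compL (L : List (Fin d → List (Fin d))) : Fin d → List (Fin d) := fun a =>
  L.foldl (fun w t => w.flatMap t) [a]

theorem foldl_eq (L : List (Fin d → List (Fin d))) (w : List (Fin d)) :
    L.foldl (fun w t => w.flatMap t) w = w.flatMap (compL L) := by
  induction L generalizing w with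
  | nil =>
    show w = w.flatMap (fun a => [a])
    simp
  | cons t L ih =>
    rw [List.foldl_cons, ih, List.flatMap_assoc]
    congr 1
    funext a
    show (t a).flatMap (compL L) = (t :: L).foldl (fun w t => w.flatMap t) [a]
    rw [List.foldl_cons, ih]
    simp

theorem compL_cons (t : Fin d → List (Fin d)) (L : List (Fin d → List (Fin d))) :
    compL (t :: L) = fun a => (t a).flatMap (compL L) := by
  funext a
  show (t :: L).foldl (fun w t => w.flatMap t) [a] = _
  rw [List.foldl_cons, foldl_eq]
  simp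

theorem coherent_compL {s : Fin d → Fin d → ℤ} (hs : ∀ a b, a < b → s a b = 1 ∨ s a b = -1)
    (L : List (Fin d → List (Fin d))) (hL : ∀ t ∈ L, Coherent s t) : Coherent s (compL L) := by
  induction L with
  | nil => exact coherent_id hs
  | cons t L ih =>
    rw [compL_cons]
    exact coherent_comp hs (hL t (List.mem_cons_self ..))
      (ih fun u hu => hL u (List.mem_cons_of_mem _ hu))

theorem coherent_it {s : Fin d → Fin d → ℤ} (hs : ∀ a b, a < b → s a b = 1 ∨ s a b = -1)
    {σ : Fin d → List (Fin d)} {e : ℕ} (h : Coherent s fun a => it σ e [a]) (n : ℕ) :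
    Coherent s fun a => it σ (e * n) [a] := by
  induction n with
  | zero => simpa using coherent_id hs
  | succ n ih =>
    have h1 : (fun a => it σ (e * (n + 1)) [a]) =
        fun a => (it σ (e * n) [a]).flatMap fun b => it σ e [b] := by
      funext a
      rw [mul_add, mul_one, add_comm, it_add]
      exact it_eq_flatMap σ e _
    rw [h1]
    exact coherent_comp hs ih h

theorem aug_minor {σ : Fin d → List (Fin d)} {M : Matrix (Fin d) (Fin d) ℤ} (hσ : Sub σ M) (n : ℕ)
    (a b i j : Fin d) :
    aug (minor (fun x => it σ n [x]) a b i j) = min2 (M ^ n) i j a b := by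
  have h1 : ∀ x y : Fin d, ab (it σ n [x]) y = (M ^ n) y x := by
    intro x y
    rw [ab_it hσ, ab_singleton, Matrix.mulVec_single_one]
    rfl
  simp only [minor, map_sub, map_mul, aug_fox, h1, min2]
  ring

theorem nm_minor {s : Fin d → Fin d → ℤ} (hs : ∀ a b, a < b → s a b = 1 ∨ s a b = -1)
    {t : Fin d → List (Fin d)} (ht : Coherent s t) (a b i j : Fin d) :
    (nm (minor t a b i j) : ℤ) = |aug (minor t a b i j)| := by
  obtain ⟨δ, hδ, h⟩ := ht
  have key : ∀ a b i j : Fin d, a < b → i < j →
      (nm (minor t a b i j) : ℤ) = |aug (minor t a b i j)| := fun a b i j hab hij =>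
    nm_of_sign (sign_mul (sign_mul hδ (hs a b hab)) (hs i j hij)) (h a b i j hab hij)
  have key2 : ∀ a b i j : Fin d, a < b →
      (nm (minor t a b i j) : ℤ) = |aug (minor t a b i j)| := by
    intro a b i j hab
    rcases lt_trichotomy i j with hij | rfl | hij
    · exact key a b i j hab hij
    · have h1 : minor t a b i i = 0 := by rw [minor_eq, min2_self_col]
      rw [h1, nm_zero', map_zero]
      simp
    · have h1 : minor t a b i j = -minor t a b j i := by
        rw [minor_eq, minor_eq, min2_swap_col]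
      rw [h1, nm_neg', map_neg, abs_neg]
      exact key a b j i hab hij
  rcases lt_trichotomy a b with hab | rfl | hab
  · exact key2 a b i j hab
  · have h1 : minor t a a i j = 0 := by rw [minor_eq, min2_self_row]
    rw [h1, nm_zero', map_zero]
    simp
  · have h1 : minor t a b i j = -minor t b a i j := by
      rw [minor_eq, minor_eq, min2_swap_row]
    rw [h1, nm_neg', map_neg, abs_neg]
    exact key2 b a i j hab

/-- The sign coherent class. -/
theorem coh : CohStmt := by
  intro d σ M r f l C θ D s hs L hL e he hit ε hε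
  have hr1 := D.pis.one_lt
  have h1 : Coherent s fun a => it σ e [a] := by
    have h2 : (fun a => it σ e [a]) = compL L := funext hit
    rw [h2]
    exact coherent_compL hs L hL
  have h3 : ∀ a b i j : Fin d, ∀ᶠ n : ℕ in atTop,
      |((min2 (M ^ n) i j a b : ℤ) : ℝ) / r ^ n| ≤ ε := by
    intro a b i j
    have h4 := (tendsto_zero_iff_abs_tendsto_zero _).1 (min2_pow_tendsto D.per hr1 i j a b)
    exact (h4.eventually_lt_const hε).mono fun n hn => hn.le
  have h5 : ∀ᶠ n : ℕ in atTop, ∀ a b i j : Fin d,
      |((min2 (M ^ n) i j a b : ℤ) : ℝ) / r ^ n| ≤ ε :=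
    eventually_all.2 fun a => eventually_all.2 fun b => eventually_all.2 fun i =>
      eventually_all.2 fun j => h3 a b i j
  have h6 : Tendsto (fun n : ℕ => e * n) atTop atTop :=
    tendsto_id.const_mul_atTop' (by omega)
  obtain ⟨n, hn⟩ := (h6.eventually h5).exists
  refine ⟨e * n, fun a b i j => ?_⟩
  have h7 := nm_minor hs (coherent_it hs h1 n) a b i j
  rw [aug_minor D.sub] at h7
  have h8 := hn a b i j
  have hr : 0 < r ^ (e * n) := pow_pos (by linarith) _
  rw [abs_div, abs_of_pos hr, div_le_iff₀ hr] at h8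
  have h9 : (nm (minor (fun x => it σ (e * n) [x]) a b i j) : ℝ) =
      |((min2 (M ^ (e * n)) i j a b : ℤ) : ℝ)| := by
    rw [← Int.cast_abs, ← h7]
    simp
  rw [h9]
  exact h8

end Pool.Agent.Helper11_Minor
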