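import Pool.Agent.Helper11_Minor.Coh

/-!
# Squad MINORS, part B: the elementary substitutions between neighbouring letters are coherent
-/

set_option autoImplicit false

namespace Pool.Agent.Helper11_Minor

open Matrix Finset Filter Topology Pool.Agent.Helper94_Pisot Pool.Agent.Minor

variable {d : ℕ}

theorem NN_zero : NN (0 : Lau d) := fun v => by simp

theorem NN_mon (u : Fin d → ℤ) : NN (mon u) := by
  classical
  intro v
  rw [mon, AddMonoidAlgebra.coeff_single, Finsupp.single_apply]
  split_ifs <;> norm_num

theorem NN_one : NN (1 : Lau d) := NN_mon 0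

theorem NN.add {p q : Lau d} (hp : NN p) (hq : NN q) : NN (p + q) :=
  fun v => add_nonneg (hp v) (hq v)

theorem NN_fox (w : List (Fin d)) (i : Fin d) : NN (fox w i) := by
  induction w with
  | nil => exact NN_zero
  | cons a w ih =>
    rw [fox]
    refine NN.add ?_ ((NN_mon _).mul ih)
    split_ifs
    · exact NN_one
    · exact NN_zero

theorem fox_of_notMem {w : List (Fin d)} {i : Fin d} (h : i ∉ w) : fox w i = 0 := by
  induction w with
  | nil => rfl
  | cons a w ih =>
    rw [List.mem_cons, not_or] at h
    rw [fox, ih h.2, if_neg (Ne.symm h.1), mul_zero, add_zero]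

/-- The elementary substitutions between neighbouring letters are coherent. -/
theorem ele : EleStmt := by
  rintro d t ⟨i, j, hij, hi, hk⟩
  refine coherent_iff.2 ⟨1, Or.inl rfl, fun a b c e hab hce => ?_⟩
  have h1 : ∀ k x : Fin d, x ∈ t k → x = k ∨ k = i ∧ x = j := by
    intro k x hx
    by_cases hki : k = i
    · subst hki
      rcases hi with h | h <;> rw [h] at hx <;> simp at hx <;> tauto
    · rw [hk k hki] at hx
      simp at hx
      exact Or.inl hx
  have h2 : fox (t a) e * fox (t b) c = 0 := by
    by_cases h3 : e ∈ t a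
    · by_cases h4 : c ∈ t b
      · exfalso
        rw [Fin.lt_def] at hab hce
        rcases h1 a e h3 with h5 | ⟨h5, h6⟩ <;> rcases h1 b c h4 with h7 | ⟨h7, h8⟩ <;>
          subst_vars <;> omega
      · rw [fox_of_notMem h4, mul_zero]
    · rw [fox_of_notMem h3, zero_mul]
  rw [minor, h2, sub_zero]
  simp only [mul_one, one_smul]
  exact (NN_fox _ _).mul (NN_fox _ _)

end Pool.Agent.Helper11_Minor
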